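import Mathlib
import Pool.Agent.H709Exc.J_girth_graph

set_option autoImplicit false

/-!
# Regular graphs of large girth (the construction of `Pool.Agent.X51.Girth.Regular`), and the
uniqueness of short paths in them
-/

namespace Pool.Agent.X241

open SimpleGraph Pool.Agent.H709Exc

theorem reg_girth (d g : ℕ) : ∃ (n : ℕ) (G : SimpleGraph (Fin n)), 0 < n ∧
    (∀ v, (G.neighborSet v).ncard = d) ∧ ∀ (v : Fin n) (w : G.Walk v v), w.IsCycle → g < w.length := by
  classical
  obtain ⟨Γ, hG, hF, s, hs, hw⟩ := girth_graph_biggs d (g + 2)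
  have hs1 : ∀ c, s c ≠ 1 := by
    intro c h
    apply hw [c] (by simp) (by simp) (List.isChain_singleton _)
    simp [h]
  have hinj : Function.Injective s := by
    intro c c' h
    by_contra hne
    apply hw [c, c'] (by simp) (by simp)
    · rw [List.isChain_cons_cons]
      exact ⟨hne, List.isChain_singleton _⟩
    · simp only [List.map_cons, List.map_nil, List.prod_cons, List.prod_nil, mul_one]
      rw [← h, hs]
  let H : SimpleGraph (ULift.{0} Γ) :=
    { Adj := fun x y => ∃ c, y.down = x.down * s c
      symm := ⟨by
        rintro x y ⟨c, hc⟩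
        exact ⟨c, by rw [hc, mul_assoc, hs, mul_one]⟩⟩
      loopless := ⟨by
        rintro x ⟨c, hc⟩
        exact hs1 c (by simpa using hc.symm)⟩ }
  have hH : ∀ x y, H.Adj x y ↔ ∃ c, y.down = x.down * s c := fun x y => Iff.rfl
  have hdeg : ∀ v, (H.neighborSet v).ncard = d := by
    intro v
    have h1 : H.neighborSet v = (fun c : Fin d => (ULift.up (v.down * s c) : ULift.{0} Γ)) '' Set.univ := by
      ext w
      rw [mem_neighborSet, hH, Set.image_univ, Set.mem_range]
      constructor
      · rintro ⟨c, hc⟩
        exact ⟨c, by rw [← hc]⟩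
      · rintro ⟨c, hc⟩
        exact ⟨c, by rw [← hc]⟩
    rw [h1, Set.ncard_image_of_injective, Set.ncard_univ, Nat.card_eq_fintype_card, Fintype.card_fin]
    intro c c' h
    have h1 : v.down * s c = v.down * s c' := congrArg ULift.down h
    exact hinj (mul_left_cancel h1)
  have hgirth : ∀ (v : ULift.{0} Γ) (w : H.Walk v v), w.IsCycle → g < w.length := by
    intro v w hcyc
    by_contra hlen
    push Not at hlen
    obtain ⟨l, hl1, hl2, hl3, -⟩ := girth_graph_walk d s hs H hH w hcyc.isTrail
    have hne : l ≠ [] := by
      intro h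
      rw [h] at hl1
      have := hcyc.three_le_length
      simp at hl1
      omega
    apply hw l hne (by omega) hl3
    have : v.down * 1 = v.down * (l.map s).prod := by rw [mul_one]; exact hl2
    exact (mul_left_cancel this).symm
  -- transport to `Fin n`
  let e := Fintype.equivFin (ULift.{0} Γ)
  let G : SimpleGraph (Fin (Fintype.card (ULift.{0} Γ))) := H.map e.toEmbedding
  let iso : H ≃g G := SimpleGraph.Iso.map e H
  refine ⟨Fintype.card (ULift.{0} Γ), G, Fintype.card_pos_iff.2 ⟨ULift.up 1⟩, ?_, ?_⟩
  · intro v
    have h1 : G.neighborSet v = iso '' (H.neighborSet (iso.symm v)) := by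
      ext w
      rw [mem_neighborSet, Set.mem_image]
      constructor
      · intro hvw
        refine ⟨iso.symm w, ?_, iso.apply_symm_apply w⟩
        rw [mem_neighborSet]
        exact iso.symm.map_adj_iff.2 hvw
      · rintro ⟨u, hu, rfl⟩
        rw [mem_neighborSet] at hu
        have := iso.map_adj_iff.2 hu
        rwa [iso.apply_symm_apply] at this
    rw [h1, Set.ncard_image_of_injective _ iso.injective]
    exact hdeg _
  · intro v w hcyc
    have h1 := hgirth _ (w.map iso.symm.toHom) (hcyc.map iso.symm.injective)
    rwa [Walk.length_map] at h1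

/-- In a graph of large girth short paths are unique. -/
theorem unique_short {V : Type} {G : SimpleGraph V} {r : ℕ}
    (hg : ∀ (v : V) (w : G.Walk v v), w.IsCycle → 2 * r < w.length) {s t : V} (p q : G.Walk s t)
    (hp : p.IsPath) (hq : q.IsPath) (hpr : p.length ≤ r) (hqr : q.length ≤ r) : p = q := by
  classical
  set H : SimpleGraph V := SimpleGraph.fromEdgeSet {e | e ∈ p.edges ∨ e ∈ q.edges} with hH
  have hHG : H ≤ G := by
    intro a b hab
    rw [hH, SimpleGraph.fromEdgeSet_adj] at hab
    rcases hab.1 with h | h
    · exact p.adj_of_mem_edges h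
    · exact q.adj_of_mem_edges h
  have hpe : ∀ e ∈ p.edges, e ∈ H.edgeSet := by
    intro e he
    rw [hH, SimpleGraph.edgeSet_fromEdgeSet]
    exact ⟨Or.inl he, fun hd => G.not_isDiag_of_mem_edgeSet (p.edges_subset_edgeSet he) hd⟩
  have hqe : ∀ e ∈ q.edges, e ∈ H.edgeSet := by
    intro e he
    rw [hH, SimpleGraph.edgeSet_fromEdgeSet]
    exact ⟨Or.inr he, fun hd => G.not_isDiag_of_mem_edgeSet (q.edges_subset_edgeSet he) hd⟩
  by_cases hac : H.IsAcyclic
  · have h1 := (hac.subsingleton_path s t).elim ⟨p.transfer H hpe, hp.transfer hpe⟩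
      ⟨q.transfer H hqe, hq.transfer hqe⟩
    have h2 : p.transfer H hpe = q.transfer H hqe := congrArg Subtype.val h1
    have h3 := congrArg (fun w => w.support) h2
    simp only [Walk.support_transfer] at h3
    exact Walk.ext_support h3
  · exfalso
    unfold SimpleGraph.IsAcyclic at hac
    push Not at hac
    obtain ⟨v, c, hc⟩ := hac
    have hc' : (c.mapLe hHG).IsCycle := hc.mapLe hHG
    have h1 := hg v (c.mapLe hHG) hc'
    have h2 : (c.mapLe hHG).length = c.length := by simp
    rw [h2] at h1
    have h3 : c.edges.toFinset ⊆ (p.edges ++ q.edges).toFinset := by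
      intro e he
      rw [List.mem_toFinset] at he
      have h4 := c.edges_subset_edgeSet he
      rw [hH, SimpleGraph.edgeSet_fromEdgeSet] at h4
      rw [List.mem_toFinset, List.mem_append]
      exact h4.1
    have h4 := Finset.card_le_card h3
    rw [List.toFinset_card_of_nodup hc.edges_nodup] at h4
    have h5 := (p.edges ++ q.edges).toFinset_card_le
    rw [List.length_append, Walk.length_edges, Walk.length_edges] at h5
    rw [Walk.length_edges] at h4
    omega

end Pool.Agent.X241
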